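import Pool.Agent.helper14.NS.Cert

/-!
Generated: table Q20a.
-/

namespace Pool.Agent.helper14.NS.Q20a

open Pool.Agent.helper63.NF Pool.Agent.helper4.NS

def tab : TD where
  strip := true
  bm := none
  ec := 45902462976
  bc := 0
  H := [[[-59816255360, 2081394880, -4130264000, 7518620864], [-1996570196992, 510933846080], [1542885910656]], [[2625549888, 1422037824, -152240768], [49251444032, -228020891136]], [[1008852608, -133931008, 745861632], [39522469312]], [[-184519424, -51158080], [-6657367872]], [[-5444288, 10833024]], [[4637056]], [[-689408]]]
  pol := some ⟨-998043025408, -11957188952064, 5872294035456, 31362867265536, [[198513180672, -173764430464], [8000825637376, 0]], [[1575936818432, 762832117504], [50436827620992, 0]]⟩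
  a := [[[120122441728, 168789934080, 1900665962496, -2533542395904], [-36346265600, 1629694197760]], [[76048236544, 112625647616, 252744368128, -1068042289152], [138764746752, -563694927872]], [[63711739904, 71615315968, 133046730752, -676210737152], [92005400576, -564737015808]], [[53936521216, 42876338176, 51245875200, -365064028160], [25714753536, -497933615104]], [[45812350976, 20855193600, 8980529152, -160410304512], [-42228252672, -370692521984]], [[38866780160, 5566627840, -18943705088, -5492899840], [-89867550720, -228528095232]]]
  j := [0, 0, 0, 0, 0, 0]
  c := [879662989312, 1099511627776, 879662989312, 659814350848, 494726545408, 384936443904]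
  M := [[[[1097586376704, -16998465536, 43522392064], [-535718068224, 661953249280], [29852522053632]], [[94534828032, 39034748928], [4157224976384]], [[62268833792, -60878094336], [1168503799808]], [[410572292096]], [[-658606391296]], [[573324328960]]], [[[1092187652096, -669581312, 8853913600], [175938732032]], [[28495183872, 1063583744], [585979985920]], [[-1729822720]], [[164495360]]], [[[1093886345216, -270598144, 7851081728], [141506838528]], [[27518238720, 1173028864], [579130753024]], [[-1432223744]], [[129040384]]], [[[1095055507456, -190185472, 9300410368], [99690872832]], [[26856849408, 963313664], [582061654016]], [[-1202913280]], [[103022592]]], [[[1096137834496, -424542208, 10587013120], [80879419392]], [[26234650624, 749076480], [573014474752]], [[-986710016]], [[76349440]]], [[[1096010498048, -627834880, 14408876032], [106251223040]], [[26419789824, 847708160], [580321738752]], [[-1023934464]], [[98304000]]]]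
  l0 := [[[3474056785472, 7452506560], [251160245824]], [[1275871324032, -52697520896], [-11223270949504]], [[333059900928, 154945961088], [-14032237092160]], [[-328054493184, -558061751424], [-33724247813056]], [[1532349294656, 838991790144], [40545517576192]], [[-4061645740288, -1212915639680], [-74371388142272]], [[11147967724736]], [[-20507894171648]], [[24235624385792]], [[-17834836867328]], [[6523853151168]], [[-751133705408]]]
  q0 := [[-3309040384, 180571899968, 28213739968], [-131830787584, 5251502580608], [47399354885696]]
  t := [[[1258382753792, 720951574528, -327529529344, 4241980653568], [-3776625508352, 6451272876032]], [[906539237376, 1038876672, 1366813310976, -4958628020224], [2445418758144, -1929877913600]], [[759402594304, 33281540096, 450079752192, -2615186817024], [1742666399744, -460818022400]], [[643074883584, 10032840704, 259440836608, -1582733131776], [846642348032, 1320349466624]], [[545743044608, 6256721920, -394478944256, 802541928448], [-90629931008, 3684006297600]], [[467738886144, -56433573888, -645461901312, 2684012003328], [-1092750082048, 10815412764672]]]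
  y := [6580963639296, 6931003473920, 7189775253504, 7369090138112, 7457136967680, 7449620774912]
  sc := [0, 0, 0, 0, 0, 0]
  L := [(0, 2), (0, 3), (1, 1), (2, 0)]
  Lt := [(0, 2), (0, 3), (1, 1)]
  far := 2
  x2 := 10775214161920
  B1 := 879608463360
  C2 := 1379779086336
  f1 := 219902325760
  f2 := 0
  f3 := 224390124544
  is1 := 8796093022208
  s1 := 137438953472

end Pool.Agent.helper14.NS.Q20a
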