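import Pool.Agent.helper14.NS.Q20a.PN2

/-!
Generated: certificates.
-/

namespace Pool.Agent.helper14.NS.Q20a

open Pool.Agent.helper31.IA (Z)
open Pool.Agent.helper31.IX (Op XOps runX Cov CovD cov_split covD_split)
open Pool.Agent.helper31.IC (TD)
open Pool.Agent.helper63.RG (reloc)
open Pool.Agent.helper63.NF hiding TD
open Pool.Agent.helper4.NS
open Pool.Agent.helper14.CF (xE covD_E)
open Pool.Agent.helper14.NR (share)

mutual
theorem A2_c0_t6 : CovD 1 gA2 [(45813334016, 9163505664), (137438953472, 137438953472), (68719476736, 68719476736)] :=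
  covD_E kA2_eq (.n 2 (.l 2) (.n 1 (.n 2 (.l 2) (.n 1 (.n 2 (.l 2) (.n 1 (.n 1 (.l 0) (.l 0)) (.l 0))) (.n 0 (.l 0) (.l 0)))) (.n 0 (.l 0) (.l 0))))
    [(45813334016, 9163505664), (137438953472, 137438953472), (68719476736, 68719476736)] rfl (by decide +kernel)
theorem A2_c0_t8 : CovD 1 gA2 [(45813334016, 9163505664), (137438953472, 137438953472), (171798691840, 34359738368)] :=
  covD_E kA2_eq (.n 0 (.n 1 (.n 1 (.n 1 (.n 2 (.n 1 (.l 0) (.l 0)) (.l 0)) (.n 2 (.l 0) (.l 0))) (.n 1 (.l 0) (.l 0))) (.l 0)) (.n 1 (.n 1 (.n 1 (.n 2 (.n 1 (.l 0) (.l 0)) (.l 0)) (.n 2 (.l 0) (.l 0))) (.n 1 (.l 0) (.l 0))) (.l 0)))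
    [(45813334016, 9163505664), (137438953472, 137438953472), (171798691840, 34359738368)] rfl (by decide +kernel)
end

mutual
theorem A2_c0_t9 : CovD 1 gA2 [(45813334016, 9163505664), (137438953472, 137438953472), (240518168576, 34359738368)] :=
  covD_E kA2_eq (.n 1 (.n 1 (.n 1 (.n 0 (.n 1 (.l 0) (.l 0)) (.n 1 (.l 0) (.l 0))) (.n 2 (.l 0) (.l 0))) (.n 0 (.n 1 (.l 0) (.l 0)) (.n 1 (.l 0) (.l 0)))) (.n 0 (.n 0 (.l 0) (.l 0)) (.n 0 (.l 0) (.l 0))))
    [(45813334016, 9163505664), (137438953472, 137438953472), (240518168576, 34359738368)] rfl (by decide +kernel)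
theorem A2_c0_t12 : CovD 1 gA2 [(45813334016, 9163505664), (34359738368, 34359738368), (412316860416, 137438953472)] :=
  covD_E kA2_eq (.n 0 (.n 1 (.n 2 (.n 2 (.l 0) (.l 0)) (.l 0)) (.n 2 (.n 2 (.l 0) (.l 0)) (.l 0))) (.n 1 (.n 2 (.n 1 (.l 0) (.l 0)) (.l 0)) (.n 2 (.n 1 (.l 0) (.l 0)) (.l 0))))
    [(45813334016, 9163505664), (34359738368, 34359738368), (412316860416, 137438953472)] rfl (by decide +kernel)
end

mutual
theorem A2_c0_t13 : CovD 1 gA2 [(45813334016, 9163505664), (103079215104, 34359738368), (412316860416, 137438953472)] :=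
  covD_E kA2_eq (.n 2 (.n 2 (.n 2 (.n 0 (.l 0) (.l 0)) (.l 0)) (.n 0 (.l 0) (.l 0))) (.n 0 (.n 1 (.l 0) (.l 0)) (.n 1 (.l 0) (.l 0))))
    [(45813334016, 9163505664), (103079215104, 34359738368), (412316860416, 137438953472)] rfl (by decide +kernel)
theorem A2_c0_t14 : CovD 1 gA2 [(45813334016, 9163505664), (206158430208, 68719476736), (412316860416, 137438953472)] :=
  covD_E kA2_eq (.n 0 (.n 1 (.n 2 (.n 1 (.l 0) (.l 0)) (.l 0)) (.n 2 (.l 0) (.l 0))) (.n 1 (.n 2 (.n 1 (.l 0) (.l 0)) (.l 0)) (.n 2 (.l 0) (.l 0))))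
    [(45813334016, 9163505664), (206158430208, 68719476736), (412316860416, 137438953472)] rfl (by decide +kernel)
end

mutual
theorem A2_c0_t16 : CovD 1 gA2 [(45813334016, 9163505664), (137438953472, 137438953472), (687194767360, 137438953472)] :=
  covD_E kA2_eq (.n 0 (.n 1 (.n 1 (.n 2 (.l 0) (.l 0)) (.n 2 (.l 0) (.l 0))) (.n 1 (.n 2 (.l 0) (.l 0)) (.n 2 (.l 0) (.l 0)))) (.n 1 (.n 1 (.n 2 (.l 0) (.l 0)) (.n 2 (.l 0) (.l 0))) (.n 1 (.n 2 (.l 0) (.l 0)) (.n 2 (.l 0) (.l 0)))))
    [(45813334016, 9163505664), (137438953472, 137438953472), (687194767360, 137438953472)] rfl (by decide +kernel)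
theorem A2_c0_t17 : CovD 1 gA2 [(45813334016, 9163505664), (137438953472, 137438953472), (962072674304, 137438953472)] :=
  covD_E kA2_eq (.n 0 (.n 1 (.n 0 (.n 2 (.l 0) (.l 0)) (.n 2 (.l 0) (.l 0))) (.n 2 (.l 0) (.l 0))) (.n 1 (.n 2 (.l 0) (.l 0)) (.n 2 (.l 0) (.l 0))))
    [(45813334016, 9163505664), (137438953472, 137438953472), (962072674304, 137438953472)] rfl (by decide +kernel)
end

mutual
theorem A2_c0_t20 : CovD 1 gA2 [(45813334016, 9163505664), (137438953472, 137438953472), (1236950581248, 137438953472)] :=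
  covD_E kA2_eq (.n 0 (.n 1 (.n 0 (.n 2 (.l 0) (.l 0)) (.n 2 (.l 0) (.l 0))) (.n 2 (.l 0) (.l 0))) (.n 1 (.n 2 (.l 0) (.l 0)) (.n 2 (.l 0) (.l 0))))
    [(45813334016, 9163505664), (137438953472, 137438953472), (1236950581248, 137438953472)] rfl (by decide +kernel)
theorem A2_c0_t21 : CovD 1 gA2 [(45813334016, 9163505664), (137438953472, 137438953472), (1511828488192, 137438953472)] :=
  covD_E kA2_eq (.n 0 (.n 1 (.n 2 (.l 0) (.l 0)) (.n 2 (.l 0) (.l 0))) (.n 1 (.n 2 (.l 0) (.l 0)) (.n 2 (.l 0) (.l 0))))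
    [(45813334016, 9163505664), (137438953472, 137438953472), (1511828488192, 137438953472)] rfl (by decide +kernel)
end

mutual
theorem A2_c0_t22 : CovD 1 gA2 [(45813334016, 9163505664), (137438953472, 137438953472), (1924145348608, 274877906944)] :=
  covD_E kA2_eq (.n 2 (.n 0 (.n 1 (.n 2 (.l 0) (.l 0)) (.n 2 (.l 0) (.l 0))) (.n 0 (.n 2 (.l 0) (.l 0)) (.n 2 (.l 0) (.l 0)))) (.n 0 (.n 1 (.n 2 (.l 0) (.l 0)) (.n 2 (.l 0) (.l 0))) (.n 0 (.n 1 (.l 0) (.l 0)) (.n 1 (.l 0) (.l 0)))))
    [(45813334016, 9163505664), (137438953472, 137438953472), (1924145348608, 274877906944)] rfl (by decide +kernel)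
theorem A2_c0_t25 : CovD 1 gA2 [(45813334016, 9163505664), (137438953472, 137438953472), (2473901162496, 274877906944)] :=
  covD_E kA2_eq (.n 2 (.n 0 (.n 0 (.n 2 (.l 0) (.l 0)) (.n 1 (.l 0) (.l 0))) (.n 0 (.n 1 (.l 0) (.l 0)) (.n 0 (.l 0) (.l 0)))) (.n 0 (.n 0 (.n 1 (.l 0) (.l 0)) (.n 0 (.l 0) (.l 0))) (.n 0 (.n 0 (.l 0) (.l 0)) (.l 0))))
    [(45813334016, 9163505664), (137438953472, 137438953472), (2473901162496, 274877906944)] rfl (by decide +kernel)
end

mutual
theorem A2_c0_t30 : CovD 1 gA2 [(38940704768, 2290876416), (137438953472, 137438953472), (2817498546176, 68719476736)] :=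
  covD_E kA2_eq (.n 0 (.n 2 (.n 0 (.n 2 (.l 0) (.n 1 (.l 1) (.l 1))) (.n 2 (.l 0) (.n 1 (.l 1) (.l 1)))) (.l 1)) (.n 2 (.n 2 (.l 0) (.n 2 (.n 1 (.l 0) (.n 0 (.l 0) (.l 0))) (.l 1))) (.l 1)))
    [(38940704768, 2290876416), (137438953472, 137438953472), (2817498546176, 68719476736)] rfl (by decide +kernel)
theorem A2_c0_t31 : CovD 1 gA2 [(43522457600, 2290876416), (137438953472, 137438953472), (2817498546176, 68719476736)] :=
  covD_E kA2_eq (.n 0 (.n 2 (.n 2 (.l 0) (.n 2 (.n 1 (.l 0) (.n 0 (.l 0) (.l 0))) (.l 1))) (.l 1)) (.n 2 (.n 2 (.l 0) (.n 2 (.n 1 (.l 0) (.l 0)) (.l 1))) (.l 1)))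
    [(43522457600, 2290876416), (137438953472, 137438953472), (2817498546176, 68719476736)] rfl (by decide +kernel)
end

mutual
theorem A2_c0_t32 : CovD 1 gA2 [(41231581184, 4581752832), (137438953472, 137438953472), (2954937499648, 68719476736)] :=
  covD_E kA2_eq (.l 1)
    [(41231581184, 4581752832), (137438953472, 137438953472), (2954937499648, 68719476736)] rfl (by decide +kernel)
theorem A2_c0_t35 : CovD 1 gA2 [(48104210432, 2290876416), (137438953472, 137438953472), (2817498546176, 68719476736)] :=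
  covD_E kA2_eq (.n 2 (.n 0 (.n 2 (.l 0) (.n 0 (.n 2 (.l 0) (.l 1)) (.n 2 (.l 0) (.l 1)))) (.n 1 (.n 0 (.l 0) (.l 0)) (.n 2 (.l 0) (.n 2 (.l 0) (.l 1))))) (.l 1))
    [(48104210432, 2290876416), (137438953472, 137438953472), (2817498546176, 68719476736)] rfl (by decide +kernel)
end

mutual
theorem A2_c0_t36 : CovD 1 gA2 [(52685963264, 2290876416), (137438953472, 137438953472), (2817498546176, 68719476736)] :=
  covD_E kA2_eq (.n 0 (.n 2 (.n 2 (.l 0) (.n 2 (.l 0) (.n 1 (.l 1) (.l 1)))) (.l 1)) (.n 2 (.n 1 (.l 0) (.n 0 (.l 0) (.l 0))) (.l 1)))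
    [(52685963264, 2290876416), (137438953472, 137438953472), (2817498546176, 68719476736)] rfl (by decide +kernel)
theorem A2_c0_t37 : CovD 1 gA2 [(50395086848, 4581752832), (137438953472, 137438953472), (2954937499648, 68719476736)] :=
  covD_E kA2_eq (.l 1)
    [(50395086848, 4581752832), (137438953472, 137438953472), (2954937499648, 68719476736)] rfl (by decide +kernel)
end

mutual
theorem A2_c0_t38 : CovD 1 gA2 [(45813334016, 9163505664), (137438953472, 137438953472), (3161095929856, 137438953472)] :=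
  covD_E kA2_eq (.l 1)
    [(45813334016, 9163505664), (137438953472, 137438953472), (3161095929856, 137438953472)] rfl (by decide +kernel)
theorem A2_c0_t39 : CovD 1 gA2 [(45813334016, 9163505664), (137438953472, 137438953472), (3848290697216, 549755813888)] :=
  covD_E kA2_eq (.n 2 (.n 2 (.l 1) (.l 1)) (.l 1))
    [(45813334016, 9163505664), (137438953472, 137438953472), (3848290697216, 549755813888)] rfl (by decide +kernel)
end

mutual
theorem A2_c0_t40 : CovD 1 gA2 [(45813334016, 9163505664), (137438953472, 137438953472), (6597069766656, 2199023255552)] :=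
  covD_E kA2_eq (.n 2 (.n 2 (.n 2 (.l 1) (.l 1)) (.n 2 (.l 1) (.l 1))) (.n 2 (.n 2 (.l 1) (.l 1)) (.n 2 (.l 1) (.l 1))))
    [(45813334016, 9163505664), (137438953472, 137438953472), (6597069766656, 2199023255552)] rfl (by decide +kernel)
theorem B2_c0_t2 : CovD 1 gB2 [(41231581184, 4581752832), (137438953472, 137438953472), (34359738368, 34359738368)] :=
  covD_E kB2_eq (.n 2 (.n 2 (.n 2 (.n 2 (.l 1) (.n 0 (.l 1) (.l 1))) (.n 2 (.l 1) (.l 1))) (.n 2 (.n 2 (.l 1) (.l 1)) (.n 0 (.l 1) (.l 1)))) (.n 2 (.n 2 (.l 1) (.l 1)) (.n 2 (.l 1) (.l 1))))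
    [(41231581184, 4581752832), (137438953472, 137438953472), (34359738368, 34359738368)] rfl (by decide +kernel)
end

mutual
theorem B2_c0_t3 : CovD 1 gB2 [(41231581184, 4581752832), (137438953472, 137438953472), (103079215104, 34359738368)] :=
  covD_E kB2_eq (.n 2 (.n 2 (.n 0 (.l 1) (.l 1)) (.l 1)) (.n 2 (.l 1) (.l 1)))
    [(41231581184, 4581752832), (137438953472, 137438953472), (103079215104, 34359738368)] rfl (by decide +kernel)
theorem B2_c0_t5 : CovD 1 gB2 [(50395086848, 4581752832), (137438953472, 137438953472), (34359738368, 34359738368)] :=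
  covD_E kB2_eq (.n 2 (.n 2 (.n 2 (.n 2 (.l 1) (.l 1)) (.n 0 (.l 1) (.l 1))) (.n 0 (.n 2 (.l 1) (.l 1)) (.n 2 (.l 1) (.l 1)))) (.n 2 (.n 2 (.l 1) (.l 1)) (.n 2 (.l 1) (.l 1))))
    [(50395086848, 4581752832), (137438953472, 137438953472), (34359738368, 34359738368)] rfl (by decide +kernel)
end

mutual
theorem B2_c0_t6 : CovD 1 gB2 [(50395086848, 4581752832), (137438953472, 137438953472), (103079215104, 34359738368)] :=
  covD_E kB2_eq (.n 2 (.n 2 (.n 0 (.l 1) (.l 1)) (.l 1)) (.n 2 (.l 1) (.l 1)))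
    [(50395086848, 4581752832), (137438953472, 137438953472), (103079215104, 34359738368)] rfl (by decide +kernel)
theorem C2_c0_t4 : CovD 1 gC2 [(45813334016, 9163505664), (17179869184, 17179869184), (274877906944, 274877906944)] :=
  covD_E kC2_eq (.n 2 (.n 2 (.l 0) (.l 0)) (.n 2 (.l 0) (.l 0)))
    [(45813334016, 9163505664), (17179869184, 17179869184), (274877906944, 274877906944)] rfl (by decide +kernel)
end

mutual
theorem C2_c0_t5 : CovD 1 gC2 [(45813334016, 9163505664), (17179869184, 17179869184), (824633720832, 274877906944)] :=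
  covD_E kC2_eq (.n 2 (.n 2 (.l 0) (.n 0 (.l 0) (.l 0))) (.n 1 (.n 2 (.l 0) (.n 1 (.n 2 (.l 0) (.n 2 (.l 0) (.n 2 (.l 0) (.n 2 (.l 0) (.n 2 (.l 0) (.l 1)))))) (.l 0))) (.n 0 (.l 0) (.l 0))))
    [(45813334016, 9163505664), (17179869184, 17179869184), (824633720832, 274877906944)] rfl (by decide +kernel)
theorem C2_c0_t6 : CovD 1 gC2 [(45813334016, 9163505664), (51539607552, 17179869184), (549755813888, 549755813888)] :=
  covD_E kC2_eq (.n 2 (.n 2 (.l 0) (.n 0 (.l 0) (.l 0))) (.n 0 (.n 2 (.l 0) (.l 0)) (.n 2 (.l 0) (.l 0))))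
    [(45813334016, 9163505664), (51539607552, 17179869184), (549755813888, 549755813888)] rfl (by decide +kernel)
end

mutual
theorem C2_c0_t7 : CovD 1 gC2 [(45813334016, 9163505664), (103079215104, 34359738368), (549755813888, 549755813888)] :=
  covD_E kC2_eq (.n 2 (.n 2 (.l 0) (.l 0)) (.n 0 (.n 2 (.l 0) (.l 0)) (.n 2 (.l 0) (.l 0))))
    [(45813334016, 9163505664), (103079215104, 34359738368), (549755813888, 549755813888)] rfl (by decide +kernel)
theorem C2_c0_t8 : CovD 1 gC2 [(45813334016, 9163505664), (206158430208, 68719476736), (549755813888, 549755813888)] :=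
  covD_E kC2_eq (.n 2 (.n 2 (.l 0) (.l 0)) (.n 0 (.n 2 (.l 0) (.l 0)) (.n 2 (.l 0) (.l 0))))
    [(45813334016, 9163505664), (206158430208, 68719476736), (549755813888, 549755813888)] rfl (by decide +kernel)
end

mutual
theorem D2_c0 : CovD 1 gD2 [(45813334016, 9163505664), (137438953472, 137438953472), (863610339328, 863610339328)] :=
  covD_E kD2_eq (.n 2 (.n 2 (.n 2 (.l 0) (.l 0)) (.n 0 (.n 2 (.l 0) (.l 0)) (.n 1 (.l 0) (.l 0)))) (.n 0 (.n 2 (.n 2 (.l 0) (.l 0)) (.n 2 (.l 0) (.l 0))) (.n 2 (.n 2 (.l 0) (.l 0)) (.n 2 (.l 0) (.l 0)))))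
    [(45813334016, 9163505664), (137438953472, 137438953472), (863610339328, 863610339328)] rfl (by decide +kernel)
theorem E2_c0_t3 : CovD 1 gE2 [(45813334016, 9163505664), (137438953472, 137438953472), (107951292416, 107951292416)] :=
  covD_E kE2_eq (.n 2 (.l 1) (.n 2 (.l 1) (.n 2 (.n 0 (.n 0 (.l 0) (.l 0)) (.l 1)) (.n 0 (.n 0 (.l 0) (.l 0)) (.n 0 (.l 0) (.l 0))))))
    [(45813334016, 9163505664), (137438953472, 137438953472), (107951292416, 107951292416)] rfl (by decide +kernel)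
end

mutual
theorem E2_c0_t4 : CovD 1 gE2 [(45813334016, 9163505664), (137438953472, 137438953472), (323853877248, 107951292416)] :=
  covD_E kE2_eq (.n 2 (.n 2 (.n 0 (.n 2 (.n 0 (.l 0) (.l 0)) (.l 0)) (.n 2 (.n 0 (.l 0) (.l 0)) (.l 0))) (.n 0 (.n 0 (.l 0) (.l 0)) (.n 0 (.l 0) (.l 0)))) (.n 2 (.n 0 (.n 0 (.l 0) (.l 0)) (.n 0 (.l 0) (.l 0))) (.n 0 (.l 0) (.l 0))))
    [(45813334016, 9163505664), (137438953472, 137438953472), (323853877248, 107951292416)] rfl (by decide +kernel)
theorem E2_c0_t5 : CovD 1 gE2 [(45813334016, 9163505664), (137438953472, 137438953472), (647707754496, 215902584832)] :=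
  covD_E kE2_eq (.n 2 (.n 2 (.n 2 (.n 0 (.l 0) (.l 0)) (.n 0 (.l 0) (.l 0))) (.n 2 (.n 0 (.l 0) (.l 0)) (.l 0))) (.n 2 (.n 2 (.l 0) (.l 0)) (.n 2 (.l 0) (.l 0))))
    [(45813334016, 9163505664), (137438953472, 137438953472), (647707754496, 215902584832)] rfl (by decide +kernel)
end

theorem E2_c0_t6 : CovD 1 gE2 [(45813334016, 9163505664), (137438953472, 137438953472), (1295415508992, 431805169664)] :=
  covD_E kE2_eq (.n 2 (.n 2 (.n 2 (.l 0) (.l 0)) (.n 2 (.l 0) (.l 0))) (.n 2 (.n 2 (.l 0) (.l 0)) (.n 2 (.l 0) (.l 0))))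
    [(45813334016, 9163505664), (137438953472, 137438953472), (1295415508992, 431805169664)] rfl (by decide +kernel)

theorem A2_c0_t7 : CovD 1 gA2 [(45813334016, 9163505664), (137438953472, 137438953472), (206158430208, 68719476736)] :=
  covD_split 2 (by decide +kernel) A2_c0_t8 A2_c0_t9

theorem A2_c0_t5 : CovD 1 gA2 [(45813334016, 9163505664), (137438953472, 137438953472), (137438953472, 137438953472)] :=
  covD_split 2 (by decide +kernel) A2_c0_t6 A2_c0_t7

theorem A2_c0_t11 : CovD 1 gA2 [(45813334016, 9163505664), (68719476736, 68719476736), (412316860416, 137438953472)] :=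
  covD_split 1 (by decide +kernel) A2_c0_t12 A2_c0_t13

theorem A2_c0_t10 : CovD 1 gA2 [(45813334016, 9163505664), (137438953472, 137438953472), (412316860416, 137438953472)] :=
  covD_split 1 (by decide +kernel) A2_c0_t11 A2_c0_t14

theorem A2_c0_t4 : CovD 1 gA2 [(45813334016, 9163505664), (137438953472, 137438953472), (274877906944, 274877906944)] :=
  covD_split 2 (by decide +kernel) A2_c0_t5 A2_c0_t10

theorem A2_c0_t15 : CovD 1 gA2 [(45813334016, 9163505664), (137438953472, 137438953472), (824633720832, 274877906944)] :=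
  covD_split 2 (by decide +kernel) A2_c0_t16 A2_c0_t17

theorem A2_c0_t3 : CovD 1 gA2 [(45813334016, 9163505664), (137438953472, 137438953472), (549755813888, 549755813888)] :=
  covD_split 2 (by decide +kernel) A2_c0_t4 A2_c0_t15

theorem A2_c0_t19 : CovD 1 gA2 [(45813334016, 9163505664), (137438953472, 137438953472), (1374389534720, 274877906944)] :=
  covD_split 2 (by decide +kernel) A2_c0_t20 A2_c0_t21

theorem A2_c0_t18 : CovD 1 gA2 [(45813334016, 9163505664), (137438953472, 137438953472), (1649267441664, 549755813888)] :=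
  covD_split 2 (by decide +kernel) A2_c0_t19 A2_c0_t22

theorem A2_c0_t2 : CovD 1 gA2 [(45813334016, 9163505664), (137438953472, 137438953472), (1099511627776, 1099511627776)] :=
  covD_split 2 (by decide +kernel) A2_c0_t3 A2_c0_t18

theorem A2_c0_t29 : CovD 1 gA2 [(41231581184, 4581752832), (137438953472, 137438953472), (2817498546176, 68719476736)] :=
  covD_split 0 (by decide +kernel) A2_c0_t30 A2_c0_t31

theorem A2_c0_t28 : CovD 1 gA2 [(41231581184, 4581752832), (137438953472, 137438953472), (2886218022912, 137438953472)] :=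
  covD_split 2 (by decide +kernel) A2_c0_t29 A2_c0_t32

theorem A2_c0_t34 : CovD 1 gA2 [(50395086848, 4581752832), (137438953472, 137438953472), (2817498546176, 68719476736)] :=
  covD_split 0 (by decide +kernel) A2_c0_t35 A2_c0_t36

theorem A2_c0_t33 : CovD 1 gA2 [(50395086848, 4581752832), (137438953472, 137438953472), (2886218022912, 137438953472)] :=
  covD_split 2 (by decide +kernel) A2_c0_t34 A2_c0_t37

theorem A2_c0_t27 : CovD 1 gA2 [(45813334016, 9163505664), (137438953472, 137438953472), (2886218022912, 137438953472)] :=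
  covD_split 0 (by decide +kernel) A2_c0_t28 A2_c0_t33

theorem A2_c0_t26 : CovD 1 gA2 [(45813334016, 9163505664), (137438953472, 137438953472), (3023656976384, 274877906944)] :=
  covD_split 2 (by decide +kernel) A2_c0_t27 A2_c0_t38

theorem A2_c0_t24 : CovD 1 gA2 [(45813334016, 9163505664), (137438953472, 137438953472), (2748779069440, 549755813888)] :=
  covD_split 2 (by decide +kernel) A2_c0_t25 A2_c0_t26

theorem A2_c0_t23 : CovD 1 gA2 [(45813334016, 9163505664), (137438953472, 137438953472), (3298534883328, 1099511627776)] :=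
  covD_split 2 (by decide +kernel) A2_c0_t24 A2_c0_t39

theorem A2_c0_t1 : CovD 1 gA2 [(45813334016, 9163505664), (137438953472, 137438953472), (2199023255552, 2199023255552)] :=
  covD_split 2 (by decide +kernel) A2_c0_t2 A2_c0_t23

theorem A2_c0 : CovD 1 gA2 [(45813334016, 9163505664), (137438953472, 137438953472), (4398046511104, 4398046511104)] :=
  covD_split 2 (by decide +kernel) A2_c0_t1 A2_c0_t40

theorem B2_c0_t1 : CovD 1 gB2 [(41231581184, 4581752832), (137438953472, 137438953472), (68719476736, 68719476736)] :=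
  covD_split 2 (by decide +kernel) B2_c0_t2 B2_c0_t3

theorem B2_c0_t4 : CovD 1 gB2 [(50395086848, 4581752832), (137438953472, 137438953472), (68719476736, 68719476736)] :=
  covD_split 2 (by decide +kernel) B2_c0_t5 B2_c0_t6

theorem B2_c0 : CovD 1 gB2 [(45813334016, 9163505664), (137438953472, 137438953472), (68719476736, 68719476736)] :=
  covD_split 0 (by decide +kernel) B2_c0_t1 B2_c0_t4

theorem C2_c0_t3 : CovD 1 gC2 [(45813334016, 9163505664), (17179869184, 17179869184), (549755813888, 549755813888)] :=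
  covD_split 2 (by decide +kernel) C2_c0_t4 C2_c0_t5

theorem C2_c0_t2 : CovD 1 gC2 [(45813334016, 9163505664), (34359738368, 34359738368), (549755813888, 549755813888)] :=
  covD_split 1 (by decide +kernel) C2_c0_t3 C2_c0_t6

theorem C2_c0_t1 : CovD 1 gC2 [(45813334016, 9163505664), (68719476736, 68719476736), (549755813888, 549755813888)] :=
  covD_split 1 (by decide +kernel) C2_c0_t2 C2_c0_t7

theorem C2_c0 : CovD 1 gC2 [(45813334016, 9163505664), (137438953472, 137438953472), (549755813888, 549755813888)] :=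
  covD_split 1 (by decide +kernel) C2_c0_t1 C2_c0_t8

theorem E2_c0_t2 : CovD 1 gE2 [(45813334016, 9163505664), (137438953472, 137438953472), (215902584832, 215902584832)] :=
  covD_split 2 (by decide +kernel) E2_c0_t3 E2_c0_t4

theorem E2_c0_t1 : CovD 1 gE2 [(45813334016, 9163505664), (137438953472, 137438953472), (431805169664, 431805169664)] :=
  covD_split 2 (by decide +kernel) E2_c0_t2 E2_c0_t5

theorem E2_c0 : CovD 1 gE2 [(45813334016, 9163505664), (137438953472, 137438953472), (863610339328, 863610339328)] :=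
  covD_split 2 (by decide +kernel) E2_c0_t1 E2_c0_t6

end Pool.Agent.helper14.NS.Q20a
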